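import Pool.Agent.MWGY.StmtsA
import Pool.Agent.Helper93_MWGX.EXO

/-!
# MWGY, row EXG: exchange, positions relative to a light letter
-/

set_option autoImplicit false

namespace Pool.Agent.MWGY.H93

open Pool.Agent.MWK (pre)
open Pool.Agent.MWGN (nn)
open Pool.Agent.MWGQ (pw)
open Pool.Agent.MWGX (Ex count_pw mem_pw)

theorem exg : ExgStmt := by
  intro n c p Z A B F G H w w' hn h hG d q s hs hqs hds e1 e2
  obtain ⟨ew, ew'⟩ := MWGX.H93.e_split h
  -- numbers
  obtain ⟨z, hz⟩ : ∃ z, z = Z.count d := ⟨_, rfl⟩
  obtain ⟨u, hu⟩ : ∃ u, u = n * z := ⟨_, rfl⟩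
  obtain ⟨v, hv⟩ : ∃ v, v = c * z := ⟨_, rfl⟩
  obtain ⟨t, ht⟩ : ∃ t, t = n * c * z := ⟨_, rfl⟩
  obtain ⟨y, hy⟩ : ∃ y, y = (n + (n - 1) * c) * z := ⟨_, rfl⟩
  have n1 : (n + c) * z = u + v := by rw [hu, hv, Nat.add_mul]
  have n2 : y + v = u + t := by
    obtain ⟨m, rfl⟩ : ∃ m, n = m + 1 := ⟨n - 1, by omega⟩
    rw [hy, hv, hu, ht, Nat.add_sub_cancel]
    ring
  have n3 : (z = 0 ∧ u = 0 ∧ v = 0 ∧ t = 0 ∧ y = 0) ∨ 2 ≤ u := by
    rcases Nat.eq_zero_or_pos z with h0 | h0
    · left
      subst h0
      refine ⟨rfl, ?_, ?_, ?_, ?_⟩
      · rw [hu, Nat.mul_zero]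
      · rw [hv, Nat.mul_zero]
      · rw [ht, Nat.mul_zero]
      · rw [hy, Nat.mul_zero]
    · right
      have := Nat.mul_le_mul hn h0
      omega
  have cw : w.count d = p.count d + (u + (A.count d + ((u + v) + (B.count d +
      (u + (F.count d + (A.count d + (G.count d + (B.count d + H.count d))))))))) := by
    rw [ew]
    simp only [List.count_append, count_pw, ← hz, ← hu, n1]
  have cw' : w'.count d = p.count d + ((u + v) + (B.count d + (y + (A.count d +
      ((u + v) + (F.count d + (A.count d + (G.count d + (B.count d + H.count d))))))))) := by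
    rw [ew']
    simp only [List.count_append, count_pw, ← hz, ← hy, n1]
  by_cases hqp : q ∈ p
  · -- `q` in `p`
    have p1 : nn w d q = (pre p q).count d := by
      unfold nn
      rw [ew, MWK.pre_append_mem hqp]
    have p2 : nn w' d q = (pre p q).count d := by
      unfold nn
      rw [ew', MWK.pre_append_mem hqp]
    have p3 := MWK.count_pre_le p d q
    rw [p1, p2, cw, cw']
    refine ⟨Iff.rfl, Iff.rfl, ?_⟩
    rcases n3 with ⟨-, h1, h2, h3, h4⟩ | h1
    · rw [h1, h2, h4]
      constructor <;> intro h5 <;> omega
    · constructor <;> intro h5 <;> omega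
  · -- `q` is not in `p`
    have sp : s ∉ p := by
      intro hsp
      apply hqp
      have h1 : q ∈ pre w s := by
        apply List.count_pos_iff.1
        unfold nn at e1
        omega
      rw [ew, MWK.pre_append_mem hsp] at h1
      exact MWK.mem_of_mem_pre h1
    have hn1 : 1 ≤ n := by omega
    have hcs : p.count s + (n * Z.count s + (A.count s + ((n + c) * Z.count s + (B.count s +
        (n * Z.count s + (F.count s + (A.count s + (G.count s + (B.count s + H.count s))))))))) =
        1 := by
      rw [ew] at hs
      simpa only [List.count_append, count_pw] using hs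
    have hsZ : s ∉ Z := by
      rw [← List.count_eq_zero]
      rcases Nat.eq_zero_or_pos (Z.count s) with h1 | h1
      · exact h1
      · have h2 := Nat.mul_le_mul hn1 h1
        omega
    have hsA : s ∉ A := by
      rw [← List.count_eq_zero]
      omega
    have hsB : s ∉ B := by
      rw [← List.count_eq_zero]
      omega
    have hsG : s ∉ G := by
      intro h1
      have := hG s h1
      omega
    have hsp' : ∀ k, s ∉ pw k Z := fun k hk => hsZ (mem_pw hk)
    have pws : pre w s = p ++ (pw n Z ++ (A ++ (pw (n + c) Z ++ (B ++ (pw n Z ++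
        pre (F ++ (A ++ (G ++ (B ++ H)))) s))))) := by
      rw [ew, MWK.pre_append sp, MWK.pre_append (hsp' _), MWK.pre_append hsA,
        MWK.pre_append (hsp' _), MWK.pre_append hsB, MWK.pre_append (hsp' _)]
    have cnt : ∀ x, nn w x s = p.count x + (n * Z.count x + (A.count x + ((n + c) * Z.count x +
        (B.count x + (n * Z.count x + (pre (F ++ (A ++ (G ++ (B ++ H)))) s).count x))))) := by
      intro x
      unfold nn
      rw [pws]
      simp only [List.count_append, count_pw]
    have hq1 := e1
    rw [cnt q] at hq1
    have hqZ : q ∉ Z := by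
      rw [← List.count_eq_zero]
      rcases Nat.eq_zero_or_pos (Z.count q) with h1 | h1
      · exact h1
      · have h2 := Nat.mul_le_mul hn1 h1
        omega
    have hqZ' : ∀ k, q ∉ pw k Z := fun k hk => hqZ (mem_pw hk)
    -- `s ∈ F` if `q` is in `A` or in `B`
    have sF : q ∈ A ∨ q ∈ B → s ∈ F := by
      intro hAB
      by_contra hF
      rw [MWK.pre_append hF, MWK.pre_append hsA, MWK.pre_append hsG, MWK.pre_append hsB] at hq1
      simp only [List.count_append] at hq1
      rcases hAB with h1 | h1
      · have h2 := List.count_pos_iff.2 h1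
        omega
      · have h2 := List.count_pos_iff.2 h1
        omega
    have dd : s ∈ F → A.count d = 0 ∧ B.count d = 0 := by
      intro hF
      have h1 := e2
      rw [cnt d, MWK.pre_append_mem hF] at h1
      have h2 := MWK.count_pre_le F d s
      rw [cw, ← hz, n1, ← hu] at h1
      constructor <;> omega
    have a0 : ∀ {Y : List ℕ} {x : ℕ}, Y.count d = 0 → (pre Y x).count d = 0 := by
      intro Y x h1
      have := MWK.count_pre_le Y d x
      omega
    by_cases hqA : q ∈ A
    · have hsF := sF (Or.inl hqA)
      obtain ⟨dA, dB⟩ := dd hsF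
      have hqB : q ∉ B := by
        intro hB
        have h1 := List.count_pos_iff.2 hqA
        have h2 := List.count_pos_iff.2 hB
        omega
      have p1 : nn w d q = p.count d + u := by
        unfold nn
        rw [ew, MWK.pre_append hqp, MWK.pre_append (hqZ' _), MWK.pre_append_mem hqA,
          List.count_append, List.count_append, count_pw, a0 dA, ← hz, ← hu]
        omega
      have p2 : nn w' d q = p.count d + ((u + v) + y) := by
        unfold nn
        rw [ew', MWK.pre_append hqp, MWK.pre_append (hqZ' _), MWK.pre_append hqB,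
          MWK.pre_append (hqZ' _), MWK.pre_append_mem hqA, List.count_append, List.count_append,
          List.count_append, List.count_append, count_pw, count_pw, a0 dA, dB, ← hz, n1, ← hy]
        omega
      rw [p1, p2, cw, cw', dA, dB]
      rcases n3 with ⟨-, h1, h2, h3, h4⟩ | h1
      · rw [h1, h2, h4]
        refine ⟨?_, ?_, ?_⟩ <;> constructor <;> intro h5 <;> omega
      · refine ⟨?_, ?_, ?_⟩ <;> constructor <;> intro h5 <;> omega
    · by_cases hqB : q ∈ B
      · have hsF := sF (Or.inr hqB)
        obtain ⟨dA, dB⟩ := dd hsF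
        have p1 : nn w d q = p.count d + (u + (u + v)) := by
          unfold nn
          rw [ew, MWK.pre_append hqp, MWK.pre_append (hqZ' _), MWK.pre_append hqA,
            MWK.pre_append (hqZ' _), MWK.pre_append_mem hqB, List.count_append,
            List.count_append, List.count_append, List.count_append, count_pw, count_pw, a0 dB,
            dA, ← hz, n1, ← hu]
          omega
        have p2 : nn w' d q = p.count d + (u + v) := by
          unfold nn
          rw [ew', MWK.pre_append hqp, MWK.pre_append (hqZ' _), MWK.pre_append_mem hqB,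
            List.count_append, List.count_append, count_pw, a0 dB, ← hz, n1]
          omega
        rw [p1, p2, cw, cw', dA, dB]
        rcases n3 with ⟨-, h1, h2, h3, h4⟩ | h1
        · rw [h1, h2, h4]
          refine ⟨?_, ?_, ?_⟩ <;> constructor <;> intro h5 <;> omega
        · refine ⟨?_, ?_, ?_⟩ <;> constructor <;> intro h5 <;> omega
      · have p1 : nn w d q = p.count d + (u + (A.count d + ((u + v) + (B.count d +
            (u + (pre (F ++ (A ++ (G ++ (B ++ H)))) q).count d))))) := by
          unfold nn
          rw [ew, MWK.pre_append hqp, MWK.pre_append (hqZ' _), MWK.pre_append hqA,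
            MWK.pre_append (hqZ' _), MWK.pre_append hqB, MWK.pre_append (hqZ' _)]
          simp only [List.count_append, count_pw, ← hz, ← hu, n1]
        have p2 : nn w' d q = p.count d + ((u + v) + (B.count d + (y + (A.count d +
            ((u + v) + (pre (F ++ (A ++ (G ++ (B ++ H)))) q).count d))))) := by
          unfold nn
          rw [ew', MWK.pre_append hqp, MWK.pre_append (hqZ' _), MWK.pre_append hqB,
            MWK.pre_append (hqZ' _), MWK.pre_append hqA, MWK.pre_append (hqZ' _)]
          simp only [List.count_append, count_pw, ← hz, ← hy, n1]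
        rw [p1, p2, cw, cw']
        rcases n3 with ⟨-, h1, h2, h3, h4⟩ | h1
        · rw [h1, h2, h4]
          refine ⟨?_, ?_, ?_⟩ <;> constructor <;> intro h5 <;> omega
        · refine ⟨?_, ?_, ?_⟩ <;> constructor <;> intro h5 <;> omega

end Pool.Agent.MWGY.H93
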